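import Pool.Agent.helper62.FSQ.SpecQ

/-!
# Row fq:FUQ (project FSQ, MP_07c750): the fractal uncertainty principle with exceptional scales
-/

set_option autoImplicit false

open MeasureTheory Set

namespace Pool.Agent.FS

theorem FUQ_scale (H t : ℕ) (hH : 2 ≤ H) (R : ℝ) (h1 : ((H ^ t : ℕ) : ℝ) ≤ R) : ∀ w : ℕ,
    R ≤ ((H ^ (t + w) : ℕ) : ℝ) → ∃ i, i ≤ w ∧ ((H ^ (t + i) : ℕ) : ℝ) ≤ R ∧
      R ≤ ((H ^ (t + i + 1) : ℕ) : ℝ) := by
  intro w
  induction w with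
  | zero =>
    intro h
    refine ⟨0, le_refl _, by simpa using h1, le_trans h ?_⟩
    exact_mod_cast Nat.pow_le_pow_right (by omega) (by omega)
  | succ w ih =>
    intro h
    by_cases h2 : R ≤ ((H ^ (t + w) : ℕ) : ℝ)
    · obtain ⟨i, hi, h3, h4⟩ := ih h2
      exact ⟨i, by omega, h3, h4⟩
    · exact ⟨w, by omega, (not_le.mp h2).le, h⟩

theorem FUQ_param (θ : ℝ) (h0 : 0 < θ) (h1 : θ < 1) (w : ℕ) : ∃ x ε q : ℝ, 0 < x ∧ x ≤ 1 ∧ 0 < ε ∧
    ε * ((w : ℝ) + 1) ≤ 1 / 2 ∧ 0 < q ∧ q < 1 ∧ q ^ 8 = θ ∧ (1 + x) ^ 2 * q ≤ 1 ∧ q ≤ x ^ (2 * ε) := by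
  obtain ⟨q, hq0, hq1, hq8⟩ : ∃ q : ℝ, 0 < q ∧ q < 1 ∧ q ^ 8 = θ := by
    refine ⟨θ ^ ((1 : ℝ) / 8), Real.rpow_pos_of_pos h0 _, Real.rpow_lt_one h0.le h1 (by norm_num), ?_⟩
    rw [← Real.rpow_natCast, ← Real.rpow_mul h0.le]
    norm_num
  have hqi : 1 < q⁻¹ := (one_lt_inv₀ hq0).mpr hq1
  have hx0 : 0 < min 1 ((q⁻¹ - 1) / 3) := lt_min one_pos (by linarith)
  have hx1 : min 1 ((q⁻¹ - 1) / 3) ≤ 1 := min_le_left _ _
  have hx2 : min 1 ((q⁻¹ - 1) / 3) ≤ (q⁻¹ - 1) / 3 := min_le_right _ _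
  set x := min 1 ((q⁻¹ - 1) / 3) with hx
  have hlx : Real.log x ≤ 0 := Real.log_nonpos hx0.le hx1
  have hlq : Real.log q < 0 := Real.log_neg hq0 hq1
  have hD : 0 < 2 * (1 - Real.log x) := by linarith
  have he0 : 0 < min (1 / (2 * ((w : ℝ) + 1))) ((-Real.log q) / (2 * (1 - Real.log x))) :=
    lt_min (by positivity) (div_pos (by linarith) hD)
  have he1 : min (1 / (2 * ((w : ℝ) + 1))) ((-Real.log q) / (2 * (1 - Real.log x))) ≤ 1 / (2 * ((w : ℝ) + 1)) :=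
    min_le_left _ _
  have he2 : min (1 / (2 * ((w : ℝ) + 1))) ((-Real.log q) / (2 * (1 - Real.log x))) ≤ (-Real.log q) / (2 * (1 - Real.log x)) :=
    min_le_right _ _
  set ε := min (1 / (2 * ((w : ℝ) + 1))) ((-Real.log q) / (2 * (1 - Real.log x))) with hε
  refine ⟨x, ε, q, hx0, hx1, he0, ?_, hq0, hq1, hq8, ?_, ?_⟩
  · have hw : (0 : ℝ) < (w : ℝ) + 1 := by positivity
    calc ε * ((w : ℝ) + 1) ≤ 1 / (2 * ((w : ℝ) + 1)) * ((w : ℝ) + 1) :=
          mul_le_mul_of_nonneg_right he1 hw.le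
      _ = 1 / 2 := by field_simp
  · have h3 : (1 + x) ^ 2 ≤ q⁻¹ := by nlinarith
    calc (1 + x) ^ 2 * q ≤ q⁻¹ * q := mul_le_mul_of_nonneg_right h3 hq0.le
      _ = 1 := inv_mul_cancel₀ hq0.ne'
  · rw [Real.rpow_def_of_pos hx0]
    have h4 : Real.log q ≤ Real.log x * (2 * ε) := by
      have h5 : ε * (2 * (1 - Real.log x)) ≤ -Real.log q := (le_div_iff₀ hD).mp he2
      nlinarith
    calc q = Real.exp (Real.log q) := (Real.exp_log hq0).symm
      _ ≤ Real.exp (Real.log x * (2 * ε)) := Real.exp_le_exp.mpr h4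

theorem FUQ_card (t0 T w : ℕ) (ε : ℝ) (hε : ε * ((w : ℝ) + 1) ≤ 1 / 2) (hε0 : 0 < ε) (A B : Finset ℕ)
    (hA : (A.card : ℝ) ≤ ε * T) (hB : (B.card : ℝ) ≤ ε * T) :
    T ≤ 2 * ((Finset.Ico t0 (t0 + T)).filter (fun t => t ∉ A ∧ t + w ≤ t0 + T ∧ ∀ i < w, t + i ∉ B)).card
      + 2 * w := by
  classical
  set TT := (Finset.Ico t0 (t0 + T)).filter (fun t => t ∉ A ∧ t + w ≤ t0 + T ∧ ∀ i < w, t + i ∉ B) with hTT
  have hsub : Finset.Ico t0 (t0 + T) ⊆ TT ∪ (A ∪ (Finset.Ico (t0 + T - w) (t0 + T) ∪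
      (B ×ˢ Finset.range w).image (fun p => p.1 - p.2))) := by
    intro t ht
    by_cases h1 : t ∈ A
    · simp [h1]
    by_cases h2 : t + w ≤ t0 + T
    · by_cases h3 : ∀ i < w, t + i ∉ B
      · have : t ∈ TT := by
          rw [hTT, Finset.mem_filter]
          exact ⟨ht, h1, h2, h3⟩
        simp [this]
      · push Not at h3
        obtain ⟨i, hi, hiB⟩ := h3
        have : t ∈ (B ×ˢ Finset.range w).image (fun p => p.1 - p.2) := by
          rw [Finset.mem_image]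
          exact ⟨(t + i, i), by simp [hi, hiB], by simp⟩
        simp only [Finset.mem_union]
        right; right; right; exact this
    · have : t ∈ Finset.Ico (t0 + T - w) (t0 + T) := by
        rw [Finset.mem_Ico] at ht ⊢
        omega
      simp only [Finset.mem_union]
      right; right; left; exact this
  have hc := Finset.card_le_card hsub
  have h1 := Finset.card_union_le TT (A ∪ (Finset.Ico (t0 + T - w) (t0 + T) ∪
      (B ×ˢ Finset.range w).image (fun p => p.1 - p.2)))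
  have h2 := Finset.card_union_le A (Finset.Ico (t0 + T - w) (t0 + T) ∪
      (B ×ˢ Finset.range w).image (fun p => p.1 - p.2))
  have h3 := Finset.card_union_le (Finset.Ico (t0 + T - w) (t0 + T))
      ((B ×ˢ Finset.range w).image (fun p => p.1 - p.2))
  have h4 : ((B ×ˢ Finset.range w).image (fun p => p.1 - p.2)).card ≤ B.card * w := by
    refine le_trans Finset.card_image_le ?_
    simp
  have h5 : (Finset.Ico (t0 + T - w) (t0 + T)).card ≤ w := by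
    rw [Nat.card_Ico]; omega
  have h6 : (Finset.Ico t0 (t0 + T)).card = T := by
    rw [Nat.card_Ico]; omega
  have h7 : T ≤ TT.card + (A.card + (w + B.card * w)) := by omega
  have h8 : (T : ℝ) ≤ TT.card + (A.card + (w + B.card * w)) := by exact_mod_cast h7
  have h9 : (B.card : ℝ) * w ≤ ε * T * w := mul_le_mul_of_nonneg_right hB (by positivity)
  have h10 : ε * T * ((w : ℝ) + 1) ≤ 1 / 2 * T := by
    calc ε * T * ((w : ℝ) + 1) = ε * ((w : ℝ) + 1) * T := by ring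
      _ ≤ 1 / 2 * T := mul_le_mul_of_nonneg_right hε (by positivity)
  have h11 : (T : ℝ) ≤ 2 * TT.card + 2 * w := by nlinarith
  exact_mod_cast h11

theorem FUQ_tp_cont (S : Finset ℤ) (a : ℤ → ℂ) : Continuous (tp S a) := by
  unfold tp ee
  fun_prop

theorem FUQ_cs (P : Finset (Finset ℕ)) (f : Finset ℕ → ℂ) :
    ‖∑ B ∈ P, f B‖ ^ 2 ≤ (P.card : ℝ) * ∑ B ∈ P, ‖f B‖ ^ 2 := by
  calc ‖∑ B ∈ P, f B‖ ^ 2 ≤ (∑ B ∈ P, ‖f B‖) ^ 2 :=
        pow_le_pow_left₀ (norm_nonneg _) (norm_sum_le _ _) 2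
    _ ≤ (P.card : ℝ) * ∑ B ∈ P, ‖f B‖ ^ 2 := sq_sum_le_card_mul_sum_sq

theorem FUQ_proof (h1 : FITQ_stmt) (h2 : CNTQ_stmt) : FUQ_stmt := by
  classical
  intro c hc hc1
  obtain ⟨θ, H, w, hθ0, hθ1, hH, hF⟩ := h1 c hc hc1
  obtain ⟨x, ε, q, hx0, hx1, hε0, hεw, hq0, hq1, hq8, hxq, hqx⟩ := FUQ_param θ hθ0 hθ1 (w + 1)
  refine ⟨ε, q ^ 2, 4 / θ ^ (w + 1), H, hε0, by positivity, ?_, ?_, hH, ?_⟩
  · exact pow_lt_one₀ hq0.le hq1 (by norm_num)
  · rw [le_div_iff₀ (by positivity)]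
    have : θ ^ (w + 1) ≤ 1 := pow_le_one₀ hθ0.le hθ1.le
    linarith
  intro t0 T Y Yg J Jg a hY hYg hG hGJ hYA hJA
  set S := Finset.Ico t0 (t0 + T) with hS
  have hScard : S.card = T := by
    rw [hS, Nat.card_Ico]; omega
  set P := S.powerset.filter (fun A : Finset ℕ => (A.card : ℝ) ≤ ε * T) with hP
  have hN0 : (0 : ℝ) ≤ (P.card : ℝ) := by positivity
  have hN : (P.card : ℝ) ^ 2 * q ^ (2 * T) ≤ 1 := by
    have h3 := h2 S x (ε * T) hx0 hx1
    rw [← hP, hScard] at h3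
    have hxp : 0 < x ^ (ε * (T : ℝ)) := Real.rpow_pos_of_pos hx0 _
    have h4 : (P.card : ℝ) ^ 2 * (x ^ (ε * (T : ℝ))) ^ 2 ≤ ((1 + x) ^ T) ^ 2 := by
      rw [← mul_pow]
      exact pow_le_pow_left₀ (by positivity) h3 2
    have h5 : q ^ T ≤ (x ^ (ε * (T : ℝ))) ^ 2 := by
      calc q ^ T ≤ (x ^ (2 * ε)) ^ T := pow_le_pow_left₀ hq0.le hqx T
        _ = (x ^ (ε * (T : ℝ))) ^ 2 := by
          rw [← Real.rpow_natCast, ← Real.rpow_mul hx0.le, ← Real.rpow_natCast, ← Real.rpow_mul hx0.le]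
          congr 1
          push_cast
          ring
    calc (P.card : ℝ) ^ 2 * q ^ (2 * T) = ((P.card : ℝ) ^ 2 * q ^ T) * q ^ T := by
          rw [two_mul, pow_add]; ring
      _ ≤ ((P.card : ℝ) ^ 2 * (x ^ (ε * (T : ℝ))) ^ 2) * q ^ T := by gcongr
      _ ≤ ((1 + x) ^ T) ^ 2 * q ^ T := by gcongr
      _ = ((1 + x) ^ 2 * q) ^ T := by rw [mul_pow, ← pow_mul, ← pow_mul, mul_comm T 2]
      _ ≤ 1 := pow_le_one₀ (by positivity) hxq
  -- the classes of the frequencies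
  set cl : ℤ → Finset ℕ := fun j => S.filter (fun t => j ∉ Jg t) with hcl
  have hclP : ∀ j ∈ J, cl j ∈ P := by
    intro j hj
    obtain ⟨A, hA, hAt⟩ := hJA j hj
    rw [hP, Finset.mem_filter, Finset.mem_powerset]
    refine ⟨Finset.filter_subset _ _, le_trans ?_ hA⟩
    have hsub : cl j ⊆ A := by
      intro t ht
      rw [hcl] at ht
      simp only [Finset.mem_filter, hS, Finset.mem_Ico] at ht
      by_contra hta
      exact ht.2 (hAt t ht.1.1 ht.1.2 hta)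
    exact_mod_cast Finset.card_le_card hsub
  set JB : Finset ℕ → Finset ℤ := fun B => J.filter (fun j => cl j = B) with hJB
  have hsplit : ∀ v, tp J a v = ∑ B ∈ P, tp (JB B) a v := by
    intro v
    unfold tp
    rw [hJB]
    exact (Finset.sum_fiberwise_of_maps_to hclP _).symm
  have hsplit2 : ∑ j ∈ J, ‖a j‖ ^ 2 = ∑ B ∈ P, ∑ j ∈ JB B, ‖a j‖ ^ 2 := by
    rw [hJB]
    exact (Finset.sum_fiberwise_of_maps_to hclP _).symm
  -- the classes of the points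
  set YA : Finset ℕ → Set ℝ := fun A => Y ∩ ⋂ t ∈ S \ A, Yg t with hYAdef
  have hYAm : ∀ A, MeasurableSet (YA A) := by
    intro A
    exact hY.inter (Finset.measurableSet_biInter _ (fun t _ => hYg t))
  -- the basic estimate
  have hbasic : ∀ A ∈ P, ∀ B ∈ P, ∫ v in YA A ∩ Icc 0 1, ‖tp (JB B) a v‖ ^ 2 ≤
      4 * (q ^ (4 * T) / θ ^ (w + 1)) * ∑ j ∈ JB B, ‖a j‖ ^ 2 := by
    intro A hA B hB
    rw [hP, Finset.mem_filter, Finset.mem_powerset] at hA hB
    set TT := S.filter (fun t => t ∉ A ∧ t + (w + 1) ≤ t0 + T ∧ ∀ i < w + 1, t + i ∉ B) with hTT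
    have hcard : T ≤ 2 * TT.card + 2 * (w + 1) := FUQ_card t0 T (w + 1) ε hεw hε0 A B hA.2 hB.2
    have hθTT : θ ^ TT.card ≤ q ^ (4 * T) / θ ^ (w + 1) := by
      rw [le_div_iff₀ (by positivity), ← pow_add, ← hq8, ← pow_mul]
      exact pow_le_pow_of_le_one hq0.le hq1.le (by omega)
    refine le_trans (hF TT (YA A) (JB B) a (hYAm A) ?_ ?_) ?_
    · intro t ht v
      rw [hTT, Finset.mem_filter] at ht
      have htS : t ∈ S := ht.1
      have htI : t0 ≤ t ∧ t < t0 + T := by simpa [hS] using htS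
      obtain ⟨y, hy, hd⟩ := hG t htI.1 htI.2 v
      refine ⟨y, hy, hd.mono_right ?_⟩
      intro u hu
      have hu2 : u ∈ ⋂ t ∈ S \ A, Yg t := hu.2
      rw [Set.mem_iInter₂] at hu2
      exact hu2 t (Finset.mem_sdiff.mpr ⟨htS, ht.2.1⟩)
    · intro t ht R hR1 hR2 ξ
      rw [hTT, Finset.mem_filter] at ht
      have htI : t0 ≤ t ∧ t < t0 + T := by simpa [hS] using ht.1
      obtain ⟨i, hi, h3, h4⟩ := FUQ_scale H t hH R hR1 w hR2
      have hti : t + i ∉ B := ht.2.2.2 i (by omega)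
      have htT : t + i < t0 + T := by
        have := ht.2.2.1
        omega
      obtain ⟨y, hy, hd⟩ := hGJ (t + i) (by omega) htT R h3 h4 ξ
      refine ⟨y, hy, ?_⟩
      intro j hj
      apply hd j
      have hj2 : j ∈ J ∧ cl j = B := by
        have : j ∈ JB B := hj
        rw [hJB] at this
        simpa [Finset.mem_filter] using this
      refine ⟨?_, hj2.1⟩
      by_contra hjn
      apply hti
      rw [← hj2.2, hcl]
      simp only [Finset.mem_filter, hS, Finset.mem_Ico]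
      exact ⟨⟨by omega, htT⟩, hjn⟩
    · have hs : 0 ≤ ∑ j ∈ JB B, ‖a j‖ ^ 2 := Finset.sum_nonneg (fun j _ => by positivity)
      gcongr
  -- integrability
  have hint : ∀ (K : Finset ℤ) (Z : Set ℝ), MeasurableSet Z →
      IntegrableOn (fun v => ‖tp K a v‖ ^ 2) (Z ∩ Icc 0 1) := by
    intro K Z hZ
    have hcI : IntegrableOn (fun v => ‖tp K a v‖ ^ 2) (Icc (0 : ℝ) 1) :=
      ((FUQ_tp_cont K a).norm.pow 2).continuousOn.integrableOn_compact isCompact_Icc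
    exact hcI.mono_set inter_subset_right
  -- one class of points
  have hA1 : ∀ A ∈ P, ∫ v in YA A ∩ Icc 0 1, ‖tp J a v‖ ^ 2 ≤
      (P.card : ℝ) * (4 * (q ^ (4 * T) / θ ^ (w + 1))) * ∑ j ∈ J, ‖a j‖ ^ 2 := by
    intro A hA
    calc ∫ v in YA A ∩ Icc 0 1, ‖tp J a v‖ ^ 2
        ≤ ∫ v in YA A ∩ Icc 0 1, (P.card : ℝ) * ∑ B ∈ P, ‖tp (JB B) a v‖ ^ 2 := by
          apply integral_mono (hint J (YA A) (hYAm A))
          · apply Integrable.const_mul
            exact integrable_finset_sum _ (fun B _ => hint (JB B) (YA A) (hYAm A))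
          · intro v
            show ‖tp J a v‖ ^ 2 ≤ _
            rw [hsplit v]
            exact FUQ_cs P _
      _ = (P.card : ℝ) * ∑ B ∈ P, ∫ v in YA A ∩ Icc 0 1, ‖tp (JB B) a v‖ ^ 2 := by
          rw [integral_const_mul, integral_finset_sum]
          exact fun B _ => hint (JB B) (YA A) (hYAm A)
      _ ≤ (P.card : ℝ) * ∑ B ∈ P, 4 * (q ^ (4 * T) / θ ^ (w + 1)) * ∑ j ∈ JB B, ‖a j‖ ^ 2 :=
          mul_le_mul_of_nonneg_left (Finset.sum_le_sum (fun B hB => hbasic A hA B hB)) hN0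
      _ = (P.card : ℝ) * (4 * (q ^ (4 * T) / θ ^ (w + 1))) * ∑ j ∈ J, ‖a j‖ ^ 2 := by
          rw [← Finset.mul_sum, ← hsplit2]
          ring
  -- the cover
  have hcov : ∫ v in Y ∩ Icc 0 1, ‖tp J a v‖ ^ 2 ≤ ∑ A ∈ P, ∫ v in YA A ∩ Icc 0 1, ‖tp J a v‖ ^ 2 := by
    have hm : ∀ A, MeasurableSet (YA A ∩ Icc (0 : ℝ) 1) := fun A => (hYAm A).inter measurableSet_Icc
    rw [← integral_indicator (hY.inter measurableSet_Icc)]
    have h6 : ∀ A ∈ P, ∫ v in YA A ∩ Icc 0 1, ‖tp J a v‖ ^ 2 =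
        ∫ v, (YA A ∩ Icc (0 : ℝ) 1).indicator (fun v => ‖tp J a v‖ ^ 2) v := by
      intro A _
      rw [integral_indicator (hm A)]
    rw [Finset.sum_congr rfl h6, ← integral_finset_sum]
    · apply integral_mono
      · exact (integrable_indicator_iff (hY.inter measurableSet_Icc)).mpr (hint J Y hY)
      · exact integrable_finset_sum _ (fun A _ => (integrable_indicator_iff (hm A)).mpr (hint J (YA A) (hYAm A)))
      · intro v
        show (Y ∩ Icc (0 : ℝ) 1).indicator (fun v => ‖tp J a v‖ ^ 2) v ≤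
          ∑ A ∈ P, (YA A ∩ Icc (0 : ℝ) 1).indicator (fun v => ‖tp J a v‖ ^ 2) v
        have hnn : ∀ A ∈ P, 0 ≤ (YA A ∩ Icc (0 : ℝ) 1).indicator (fun v => ‖tp J a v‖ ^ 2) v := by
          intro A _
          apply Set.indicator_nonneg
          intro v _
          positivity
        by_cases hv : v ∈ Y ∩ Icc (0 : ℝ) 1
        · obtain ⟨A, hA, hAt⟩ := hYA v hv.1
          have hAP : A ∩ S ∈ P := by
            rw [hP, Finset.mem_filter, Finset.mem_powerset]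
            refine ⟨Finset.inter_subset_right, le_trans ?_ hA⟩
            exact_mod_cast Finset.card_le_card Finset.inter_subset_left
          have hvA : v ∈ YA (A ∩ S) ∩ Icc (0 : ℝ) 1 := by
            refine ⟨⟨hv.1, ?_⟩, hv.2⟩
            rw [Set.mem_iInter₂]
            intro t ht
            rw [Finset.mem_sdiff, Finset.mem_inter] at ht
            have htI : t0 ≤ t ∧ t < t0 + T := by simpa [hS] using ht.1
            exact hAt t htI.1 htI.2 (fun h => ht.2 ⟨h, ht.1⟩)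
          rw [Set.indicator_of_mem hv]
          refine le_trans ?_ (Finset.single_le_sum hnn hAP)
          rw [Set.indicator_of_mem hvA]
        · rw [Set.indicator_of_notMem hv]
          exact Finset.sum_nonneg hnn
    · intro A _
      exact (integrable_indicator_iff (hm A)).mpr (hint J (YA A) (hYAm A))
  have hs : 0 ≤ ∑ j ∈ J, ‖a j‖ ^ 2 := Finset.sum_nonneg (fun j _ => by positivity)
  calc ∫ v in Y ∩ Icc 0 1, ‖tp J a v‖ ^ 2
      ≤ ∑ A ∈ P, ∫ v in YA A ∩ Icc 0 1, ‖tp J a v‖ ^ 2 := hcov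
    _ ≤ ∑ A ∈ P, (P.card : ℝ) * (4 * (q ^ (4 * T) / θ ^ (w + 1))) * ∑ j ∈ J, ‖a j‖ ^ 2 :=
        Finset.sum_le_sum hA1
    _ = ((P.card : ℝ) ^ 2 * q ^ (2 * T)) * (4 / θ ^ (w + 1) * (q ^ 2) ^ T * ∑ j ∈ J, ‖a j‖ ^ 2) := by
        rw [Finset.sum_const, nsmul_eq_mul, ← pow_mul]
        have : q ^ (4 * T) = q ^ (2 * T) * q ^ (2 * T) := by rw [← pow_add]; congr 1; ring
        rw [this]
        ring
    _ ≤ 1 * (4 / θ ^ (w + 1) * (q ^ 2) ^ T * ∑ j ∈ J, ‖a j‖ ^ 2) := by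
        apply mul_le_mul_of_nonneg_right hN
        positivity
    _ = 4 / θ ^ (w + 1) * (q ^ 2) ^ T * ∑ j ∈ J, ‖a j‖ ^ 2 := one_mul _

end Pool.Agent.FS
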